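import Pool.Agent.helper41.DL.EPAa

/-! EPA: smoothness off the roots. -/

namespace Pool.Agent.DL

open Matrix Complex MeasureTheory Set Filter Topology
open scoped ComplexOrder Manifold ContDiff ComplexConjugate


noncomputable section

/-- the vector of the unknowns -/
def EPA_V (u : Bool → ℂ → ℝ) (b g : Bool → ℂ → ℂ) (u' : Bool → ℂ → ℝ) (b' g' : Bool → ℂ → ℂ) (j : Bool) (z : ℂ) :
    Fin 8 → ℂ :=
  ![b j z, g j z, ((u j z : ℝ) : ℂ), dz (fun w => ((u j w : ℝ) : ℂ)) z,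
    b' j z, g' j z, ((u' j z : ℝ) : ℂ), dz (fun w => ((u' j w : ℝ) : ℂ)) z]

/-- the same without the derivatives -/
def EPA_V0 (u : Bool → ℂ → ℝ) (b g : Bool → ℂ → ℂ) (u' : Bool → ℂ → ℝ) (b' g' : Bool → ℂ → ℂ) (j : Bool) (z : ℂ) :
    Fin 8 → ℂ :=
  ![b j z, g j z, ((u j z : ℝ) : ℂ), 0, b' j z, g' j z, ((u' j z : ℝ) : ℂ), 0]

theorem EPA_open : IsOpen Ns := isOpen_ne_fun (by fun_prop) continuous_const

theorem EPA_dz_cont {f : ℂ → ℝ} {S : Set ℂ} (hS : IsOpen S) (hf : ContDiffOn ℝ 1 f S) :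
    ContinuousOn (dz (fun w => ((f w : ℝ) : ℂ))) S := by
  have h1 : ContDiffOn ℝ 1 (fun w => ((f w : ℝ) : ℂ)) S := Complex.ofRealCLM.contDiff.comp_contDiffOn hf
  have h2 := h1.continuousOn_fderiv_of_isOpen hS le_rfl
  unfold dz
  exact ((h2.clm_apply continuousOn_const).sub (continuousOn_const.mul (h2.clm_apply continuousOn_const))).div_const _

theorem EPA_bound {E : Type} [NormedAddCommGroup E] {f : ℂ → E} {S : Set ℂ} (hf : ContinuousOn f S) {z₀ : ℂ} {ρ : ℝ}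
    (h : Metric.closedBall z₀ ρ ⊆ S) : ∃ M : ℝ, ∀ z ∈ Metric.ball z₀ ρ, ‖f z‖ ≤ M := by
  obtain ⟨M, hM⟩ := (isCompact_closedBall z₀ ρ).exists_bound_of_continuousOn (hf.mono h)
  exact ⟨M, fun z hz => hM z (Metric.ball_subset_closedBall hz)⟩

/-- representation of a complex unknown -/
theorem EPA_rb (hERB : ERB_stmt) {V φ : ℂ → ℂ} (hφ : ContinuousOn φ Ns) {z₀ : ℂ} {ρ ρ₀ R : ℝ} (h0 : 0 < ρ) (hρ : ρ ≤ ρ₀)
    (hsub : Metric.closedBall z₀ ρ₀ ⊆ Ns) (hR : Metric.ball z₀ ρ₀ ⊆ Metric.ball 0 R)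
    (hrep : IntegrableOn φ (Metric.ball 0 R) ∧ ∃ h : ℂ → ℂ, DifferentiableOn ℂ h (Metric.ball 0 R) ∧
      ∀ z ∈ Metric.ball (0 : ℂ) R, z ^ 8 ≠ 1 → V z = TC φ (Metric.ball 0 R) z + h z) : RepAt V φ z₀ ρ := by
  obtain ⟨hi, h, hd, he⟩ := hrep
  obtain ⟨M, hM⟩ := EPA_bound hφ hsub
  have hb : Metric.ball z₀ ρ ⊆ Metric.ball z₀ ρ₀ := Metric.ball_subset_ball hρ
  exact hERB V φ 0 z₀ R ρ M h h0 (hb.trans hR) hi (fun z hz => hM z (hb hz)) hd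
    (fun z hz => he z (hR (hb hz)) (hsub (Metric.ball_subset_closedBall (hb hz))))

/-- representations of a real unknown -/
theorem EPA_ru (hERI : ERI_stmt) (hERH : ERH_stmt) {u F : ℂ → ℝ} (hF : ContinuousOn F Ns) {z₀ : ℂ} {ρ₀ R : ℝ}
    (h0 : 0 < ρ₀)
    (hsub : Metric.closedBall z₀ ρ₀ ⊆ Ns) (hR : Metric.ball z₀ ρ₀ ⊆ Metric.ball 0 R)
    (hrep : IntegrableOn F (Metric.ball 0 R) ∧ ∃ h : ℂ → ℂ, DifferentiableOn ℂ h (Metric.ball 0 R) ∧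
      ∀ z ∈ Metric.ball (0 : ℂ) R, z ^ 8 ≠ 1 → u z = TL F (Metric.ball 0 R) z + (h z).re) :
    ContDiffOn ℝ 1 u (Metric.ball z₀ (ρ₀ / 2)) ∧
    RepAt (dz (fun w => (u w : ℂ))) (fun ξ => (F ξ : ℂ)) z₀ (ρ₀ / 4) ∧
    RepAt (fun w => (u w : ℂ)) (fun ξ => conj (dz (fun w => (u w : ℂ)) ξ)) z₀ (ρ₀ / 4) := by
  obtain ⟨hi, h, hd, he⟩ := hrep
  obtain ⟨M, hM⟩ := EPA_bound hF hsub
  have key : ∀ ρ : ℝ, 0 < ρ → ρ < ρ₀ → ContDiffOn ℝ 1 u (Metric.ball z₀ ρ) ∧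
      RepAt (dz (fun w => (u w : ℂ))) (fun ξ => (F ξ : ℂ)) z₀ ρ ∧
      ∀ ρ' : ℝ, 0 < ρ' → ρ' < ρ → RepAt (fun w => (u w : ℂ)) (fun ξ => conj (dz (fun w => (u w : ℂ)) ξ)) z₀ ρ' := by
    intro ρ hρ0 hρ1
    have hb : Metric.ball z₀ ρ ⊆ Metric.ball z₀ ρ₀ := Metric.ball_subset_ball hρ1.le
    obtain ⟨h', hd', he'⟩ := hERI u F 0 z₀ R ρ₀ ρ M h hρ0 hρ1 hR hi (fun z hz => by simpa using hM z hz) hd
      (fun z hz => he z (hR hz) (hsub (Metric.ball_subset_closedBall hz)))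
    exact hERH u F h' z₀ ρ M hρ0 ((hF.mono ((hb.trans Metric.ball_subset_closedBall).trans hsub)).aestronglyMeasurable
      measurableSet_ball) (fun z hz => by simpa using hM z (hb hz)) hd' he'
  have k1 := key (ρ₀ / 2) (by linarith) (by linarith)
  have k2 := key (ρ₀ / 4) (by linarith) (by linarith)
  exact ⟨k1.1, k2.2.1, k1.2.2 (ρ₀ / 4) (by linarith) (by linarith)⟩

theorem EPA_all {P : Fin 8 → Prop} (h0 : P 0) (h1 : P 1) (h2 : P 2) (h3 : P 3) (h4 : P 4) (h5 : P 5) (h6 : P 6)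
    (h7 : P 7) : ∀ i, P i := by
  intro i
  fin_cases i <;> assumption

theorem EPA_cont (D : Dat) (hD : D.Valid) (u : Bool → ℂ → ℝ) (b g : Bool → ℂ → ℂ) (u' : Bool → ℂ → ℝ)
    (b' g' : Bool → ℂ → ℂ) (hG : GS D u b g) (hL : GSL D u b g u' b' g') (j : Bool) :
    ∀ i, ContinuousOn (fun z => EPA_G D j z (EPA_V0 u b g u' b' g' j z) i) Ns := by
  have hsm := EPA_smooth D hD j
  have hV0 : ContinuousOn (EPA_V0 u b g u' b' g' j) Ns := by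
    rw [continuousOn_pi]
    refine EPA_all ?_ ?_ ?_ ?_ ?_ ?_ ?_ ?_
    · exact (hG.cb j).continuousOn
    · exact hG.cg j
    · exact (Complex.continuous_ofReal.comp (hG.cu j)).continuousOn
    · exact continuousOn_const
    · exact (hL.cb j).continuousOn
    · exact hL.cg j
    · exact (Complex.continuous_ofReal.comp (hL.cu j)).continuousOn
    · exact continuousOn_const
  have h1 : ContinuousOn (fun z : ℂ => (z, EPA_V0 u b g u' b' g' j z)) Ns := continuousOn_id.prodMk hV0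
  have hG0 := hsm.continuousOn.comp h1 fun z hz => ⟨hz, trivial⟩
  exact continuousOn_pi.1 hG0


theorem EPA_loc (hERB : ERB_stmt) (hERI : ERI_stmt) (hERH : ERH_stmt) (D : Dat) (hD : D.Valid) (u : Bool → ℂ → ℝ)
    (b g : Bool → ℂ → ℂ) (u' : Bool → ℂ → ℝ)
    (b' g' : Bool → ℂ → ℂ) (hG : GS D u b g) (hL : GSL D u b g u' b' g') (j : Bool) (z₀ : ℂ) (hz₀ : z₀ ∈ Ns) :
    ∃ ρ₀ : ℝ, 0 < ρ₀ ∧ Metric.closedBall z₀ ρ₀ ⊆ Ns ∧
      RepAt (b j) (bet u g j) z₀ (ρ₀ / 4) ∧ RepAt (g j) (phi D u b j) z₀ (ρ₀ / 4) ∧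
      (ContDiffOn ℝ 1 (u j) (Metric.ball z₀ (ρ₀ / 2)) ∧
        RepAt (dz (fun w => ((u j w : ℝ) : ℂ))) (fun ξ => ((Fd D u b g j ξ : ℝ) : ℂ)) z₀ (ρ₀ / 4) ∧
        RepAt (fun w => ((u j w : ℝ) : ℂ)) (fun ξ => conj (dz (fun w => ((u j w : ℝ) : ℂ)) ξ)) z₀ (ρ₀ / 4)) ∧
      RepAt (b' j) (bet' u g u' g' j) z₀ (ρ₀ / 4) ∧ RepAt (g' j) (phi' D u b u' b' j) z₀ (ρ₀ / 4) ∧
      (ContDiffOn ℝ 1 (u' j) (Metric.ball z₀ (ρ₀ / 2)) ∧
        RepAt (dz (fun w => ((u' j w : ℝ) : ℂ))) (fun ξ => ((Fd' D u b g u' b' g' j ξ : ℝ) : ℂ)) z₀ (ρ₀ / 4) ∧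
        RepAt (fun w => ((u' j w : ℝ) : ℂ)) (fun ξ => conj (dz (fun w => ((u' j w : ℝ) : ℂ)) ξ)) z₀ (ρ₀ / 4)) := by
  have hc := EPA_cont D hD u b g u' b' g' hG hL j
  have c0 : ContinuousOn (bet u g j) Ns := hc 0
  have c1 : ContinuousOn (phi D u b j) Ns := hc 1
  have c3 : ContinuousOn (Fd D u b g j) Ns := Complex.continuous_re.comp_continuousOn (hc 3)
  have c4 : ContinuousOn (bet' u g u' g' j) Ns := hc 4
  have c5 : ContinuousOn (phi' D u b u' b' j) Ns := hc 5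
  have c7 : ContinuousOn (Fd' D u b g u' b' g' j) Ns := Complex.continuous_re.comp_continuousOn (hc 7)
  obtain ⟨ρ₀, h0, hsub⟩ := Metric.nhds_basis_closedBall.mem_iff.1 (EPA_open.mem_nhds hz₀)
  have hR1 : 1 < ‖z₀‖ + ρ₀ + 2 := by have := norm_nonneg z₀; linarith
  have hR : Metric.ball z₀ ρ₀ ⊆ Metric.ball 0 (‖z₀‖ + ρ₀ + 2) := by
    intro z hz
    rw [mem_ball_zero_iff]
    have h1 : ‖z - z₀‖ < ρ₀ := by rwa [← dist_eq_norm]
    have h2 : ‖z‖ ≤ ‖z - z₀‖ + ‖z₀‖ := by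
      calc ‖z‖ = ‖(z - z₀) + z₀‖ := by rw [sub_add_cancel]
        _ ≤ _ := norm_add_le _ _
    linarith
  exact ⟨ρ₀, h0, hsub,
    EPA_rb hERB c0 (by linarith : 0 < ρ₀ / 4) (by linarith) hsub hR (hG.rb j _ hR1),
    EPA_rb hERB c1 (by linarith : 0 < ρ₀ / 4) (by linarith) hsub hR (hG.rg j _ hR1),
    EPA_ru hERI hERH c3 h0 hsub hR (hG.ru j _ hR1),
    EPA_rb hERB c4 (by linarith : 0 < ρ₀ / 4) (by linarith) hsub hR (hL.rb j _ hR1),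
    EPA_rb hERB c5 (by linarith : 0 < ρ₀ / 4) (by linarith) hsub hR (hL.rg j _ hR1),
    EPA_ru hERI hERH c7 h0 hsub hR (hL.ru j _ hR1)⟩


section
variable (D : Dat) (u : Bool → ℂ → ℝ) (b g : Bool → ℂ → ℂ) (u' : Bool → ℂ → ℝ) (b' g' : Bool → ℂ → ℂ) (j : Bool) (z : ℂ)

theorem EPA_v0 : EPA_V u b g u' b' g' j z 0 = b j z := rfl
theorem EPA_v1 : EPA_V u b g u' b' g' j z 1 = g j z := rfl
theorem EPA_v2 : EPA_V u b g u' b' g' j z 2 = ((u j z : ℝ) : ℂ) := rfl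
theorem EPA_v3 : EPA_V u b g u' b' g' j z 3 = dz (fun w => ((u j w : ℝ) : ℂ)) z := rfl
theorem EPA_v4 : EPA_V u b g u' b' g' j z 4 = b' j z := rfl
theorem EPA_v5 : EPA_V u b g u' b' g' j z 5 = g' j z := rfl
theorem EPA_v6 : EPA_V u b g u' b' g' j z 6 = ((u' j z : ℝ) : ℂ) := rfl
theorem EPA_v7 : EPA_V u b g u' b' g' j z 7 = dz (fun w => ((u' j w : ℝ) : ℂ)) z := rfl

theorem EPA_g0 : EPA_G D j z (EPA_V u b g u' b' g' j z) 0 = bet u g j z := rfl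
theorem EPA_g1 : EPA_G D j z (EPA_V u b g u' b' g' j z) 1 = phi D u b j z := rfl
theorem EPA_g2 : EPA_G D j z (EPA_V u b g u' b' g' j z) 2 = conj (dz (fun w => ((u j w : ℝ) : ℂ)) z) := rfl
theorem EPA_g3 : EPA_G D j z (EPA_V u b g u' b' g' j z) 3 = (Fd D u b g j z : ℂ) := rfl
theorem EPA_g4 : EPA_G D j z (EPA_V u b g u' b' g' j z) 4 = bet' u g u' g' j z := rfl
theorem EPA_g5 : EPA_G D j z (EPA_V u b g u' b' g' j z) 5 = phi' D u b u' b' j z := rfl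
theorem EPA_g6 : EPA_G D j z (EPA_V u b g u' b' g' j z) 6 = conj (dz (fun w => ((u' j w : ℝ) : ℂ)) z) := rfl
theorem EPA_g7 : EPA_G D j z (EPA_V u b g u' b' g' j z) 7 = (Fd' D u b g u' b' g' j z : ℂ) := rfl

end

theorem EPA_loc2 (hERB : ERB_stmt) (hERI : ERI_stmt) (hERH : ERH_stmt) (D : Dat) (hD : D.Valid) (u : Bool → ℂ → ℝ)
    (b g : Bool → ℂ → ℂ) (u' : Bool → ℂ → ℝ)
    (b' g' : Bool → ℂ → ℂ) (hG : GS D u b g) (hL : GSL D u b g u' b' g') (j : Bool) (z₀ : ℂ) (hz₀ : z₀ ∈ Ns) :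
    ∃ ρ : ℝ, 0 < ρ ∧ Metric.ball z₀ ρ ⊆ Ns ∧
      AEStronglyMeasurable (EPA_V u b g u' b' g' j) (volume.restrict (Metric.ball z₀ ρ)) ∧
      (∃ M : ℝ, ∀ z ∈ Metric.ball z₀ ρ, ‖EPA_V u b g u' b' g' j z‖ ≤ M) ∧
      ∀ i, RepAt (fun z => EPA_V u b g u' b' g' j z i)
        (fun z => EPA_G D j z (EPA_V u b g u' b' g' j z) i) z₀ ρ := by
  obtain ⟨ρ₀, h0, hsub, r0, r1, ⟨s2, r3, r2⟩, r4, r5, ⟨s6, r7, r6⟩⟩ :=
    EPA_loc hERB hERI hERH D hD u b g u' b' g' hG hL j z₀ hz₀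
  have hb2 : Metric.ball z₀ (ρ₀ / 2) ⊆ Ns :=
    ((Metric.ball_subset_ball (by linarith)).trans Metric.ball_subset_closedBall).trans hsub
  have hV : ContinuousOn (EPA_V u b g u' b' g' j) (Metric.ball z₀ (ρ₀ / 2)) := by
    rw [continuousOn_pi]
    refine EPA_all ?_ ?_ ?_ ?_ ?_ ?_ ?_ ?_
    · simp only [EPA_v0]; exact (hG.cb j).continuousOn
    · simp only [EPA_v1]; exact (hG.cg j).mono hb2
    · simp only [EPA_v2]; exact (Complex.continuous_ofReal.comp (hG.cu j)).continuousOn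
    · simp only [EPA_v3]; exact EPA_dz_cont Metric.isOpen_ball s2
    · simp only [EPA_v4]; exact (hL.cb j).continuousOn
    · simp only [EPA_v5]; exact (hL.cg j).mono hb2
    · simp only [EPA_v6]; exact (Complex.continuous_ofReal.comp (hL.cu j)).continuousOn
    · simp only [EPA_v7]; exact EPA_dz_cont Metric.isOpen_ball s6
  have hb4 : Metric.ball z₀ (ρ₀ / 4) ⊆ Metric.ball z₀ (ρ₀ / 2) := Metric.ball_subset_ball (by linarith)
  refine ⟨ρ₀ / 4, by linarith, hb4.trans hb2, (hV.mono hb4).aestronglyMeasurable measurableSet_ball,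
    EPA_bound hV (Metric.closedBall_subset_ball (by linarith)), ?_⟩
  refine EPA_all ?_ ?_ ?_ ?_ ?_ ?_ ?_ ?_
  · simp only [EPA_v0, EPA_g0]; exact r0
  · simp only [EPA_v1, EPA_g1]; exact r1
  · simp only [EPA_v2, EPA_g2]; exact r2
  · simp only [EPA_v3, EPA_g3]; exact r3
  · simp only [EPA_v4, EPA_g4]; exact r4
  · simp only [EPA_v5, EPA_g5]; exact r5
  · simp only [EPA_v6, EPA_g6]; exact r6
  · simp only [EPA_v7, EPA_g7]; exact r7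

theorem EPA (hERJ : ERJ_stmt) (hERK : ERK_stmt) (hERB : ERB_stmt) (hERI : ERI_stmt) (hERH : ERH_stmt) : EPA_stmt := by
  intro D u b g u' b' g' hD hG hL j
  have hsm := EPA_smooth D hD j
  have hloc := EPA_loc2 hERB hERI hERH D hD u b g u' b' g' hG hL j
  obtain ⟨hV1, hV2⟩ := hERJ 8 (EPA_V u b g u' b' g' j) (EPA_G D j) Ns EPA_open hsm hloc
  have hV3 := hERK 8 (EPA_V u b g u' b' g' j) (EPA_G D j) Ns EPA_open hsm hV1 (fun z₀ hz₀ => by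
    obtain ⟨ρ, h1, h2, -, -, h3⟩ := hloc z₀ hz₀
    exact ⟨ρ, h1, h2, h3⟩)
  have hV4 : ∀ i, ContDiffOn ℝ 2 (fun z => EPA_V u b g u' b' g' j z i) Ns := contDiffOn_pi.1 hV3
  have q0 := hV4 0
  have q1 := hV4 1
  have q2 := hV4 2
  have q3 := hV4 3
  have q4 := hV4 4
  have q5 := hV4 5
  have q6 := hV4 6
  have q7 := hV4 7
  simp only [EPA_v0] at q0
  simp only [EPA_v1] at q1
  simp only [EPA_v2] at q2
  simp only [EPA_v3] at q3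
  simp only [EPA_v4] at q4
  simp only [EPA_v5] at q5
  simp only [EPA_v6] at q6
  simp only [EPA_v7] at q7
  refine ⟨⟨Complex.reCLM.contDiff.comp_contDiffOn q2, q0, q1, q3⟩, fun z hz => ?_,
    ⟨Complex.reCLM.contDiff.comp_contDiffOn q6, q4, q5, q7⟩, fun z hz => ?_⟩
  · have e0 := hV2 z hz 0
    have e1 := hV2 z hz 1
    have e3 := hV2 z hz 3
    simp only [EPA_v0, EPA_g0] at e0
    simp only [EPA_v1, EPA_g1] at e1
    simp only [EPA_v3, EPA_g3] at e3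
    exact ⟨e0, e1, e3⟩
  · have e0 := hV2 z hz 4
    have e1 := hV2 z hz 5
    have e3 := hV2 z hz 7
    simp only [EPA_v4, EPA_g4] at e0
    simp only [EPA_v5, EPA_g5] at e1
    simp only [EPA_v7, EPA_g7] at e3
    exact ⟨e0, e1, e3⟩

end

end Pool.Agent.DL
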