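import Pool.Agent.helper22.DL.SpecE2

/-! EPA, part 1: smoothness of the right hand side. -/

namespace Pool.Agent.DL

open Matrix Complex MeasureTheory Set Filter Topology
open scoped ComplexOrder Manifold ContDiff ComplexConjugate

noncomputable section

section
variable {X : Type} [NormedAddCommGroup X] [NormedSpace ℝ X] {S : Set X}

theorem EPA_conj {f : X → ℂ} (h : ContDiffOn ℝ ∞ f S) : ContDiffOn ℝ ∞ (fun x => conj (f x)) S :=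
  Complex.conjCLE.contDiff.comp_contDiffOn h

theorem EPA_re {f : X → ℂ} (h : ContDiffOn ℝ ∞ f S) : ContDiffOn ℝ ∞ (fun x => (f x).re) S :=
  Complex.reCLM.contDiff.comp_contDiffOn h

theorem EPA_of {f : X → ℝ} (h : ContDiffOn ℝ ∞ f S) : ContDiffOn ℝ ∞ (fun x => ((f x : ℝ) : ℂ)) S :=
  Complex.ofRealCLM.contDiff.comp_contDiffOn h

theorem EPA_exp {f : X → ℝ} (h : ContDiffOn ℝ ∞ f S) : ContDiffOn ℝ ∞ (fun x => Real.exp (f x)) S :=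
  h.exp

theorem EPA_nsq {f : X → ℂ} (h : ContDiffOn ℝ ∞ f S) : ContDiffOn ℝ ∞ (fun x => ‖f x‖ ^ 2) S :=
  h.norm_sq ℝ

theorem EPA_c {E : Type} [NormedAddCommGroup E] [NormedSpace ℝ E] (c : E) : ContDiffOn ℝ ∞ (fun _ : X => c) S :=
  contDiffOn_const

variable {P R B B' : X → ℂ} {L L' : X → ℝ}

theorem EPA_xx (hP : ContDiffOn ℝ ∞ P S) (hB : ContDiffOn ℝ ∞ B S) : ContDiffOn ℝ ∞ (fun x => xx (P x) (B x)) S :=
  hP.sub ((EPA_c _).mul (hB.pow 2))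

theorem EPA_yy (hP : ContDiffOn ℝ ∞ P S) (hR : ContDiffOn ℝ ∞ R S) (hB : ContDiffOn ℝ ∞ B S) :
    ContDiffOn ℝ ∞ (fun x => yy (P x) (R x) (B x)) S :=
  (hR.add (((EPA_c _).mul hB).mul hP)).sub (hB.pow 3)

theorem EPA_RR (hP : ContDiffOn ℝ ∞ P S) (hR : ContDiffOn ℝ ∞ R S) (hL : ContDiffOn ℝ ∞ L S) (hB : ContDiffOn ℝ ∞ B S) :
    ContDiffOn ℝ ∞ (fun x => RR (P x) (R x) (L x) (B x)) S :=
  (((EPA_exp hL).mul (EPA_nsq (EPA_xx hP hB))).add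
    ((EPA_exp ((EPA_c (2 : ℝ)).mul hL)).mul (EPA_nsq (EPA_yy hP hR hB)))).sub (EPA_exp hL.neg)

theorem EPA_QQ (hP : ContDiffOn ℝ ∞ P S) (hR : ContDiffOn ℝ ∞ R S) (hL : ContDiffOn ℝ ∞ L S) (hB : ContDiffOn ℝ ∞ B S) :
    ContDiffOn ℝ ∞ (fun x => QQ (P x) (R x) (L x) (B x)) S :=
  (((EPA_c _).mul hB).sub ((((EPA_c _).mul (EPA_of (EPA_exp hL))).mul (EPA_conj hB)).mul (EPA_xx hP hB))).add
    (((EPA_of (EPA_exp ((EPA_c (2 : ℝ)).mul hL))).mul (EPA_yy hP hR hB)).mul (EPA_conj (EPA_xx hP hB)))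

theorem EPA_RR' (hP : ContDiffOn ℝ ∞ P S) (hR : ContDiffOn ℝ ∞ R S) (hL : ContDiffOn ℝ ∞ L S) (hB : ContDiffOn ℝ ∞ B S)
    (hL' : ContDiffOn ℝ ∞ L' S) (hB' : ContDiffOn ℝ ∞ B' S) :
    ContDiffOn ℝ ∞ (fun x => RR' (P x) (R x) (L x) (B x) (L' x) (B' x)) S := by
  unfold RR'
  refine ((((EPA_exp hL).mul ((hL'.mul (EPA_nsq (EPA_xx hP hB))).add ((EPA_c _).mul (EPA_re
    ((EPA_conj (EPA_xx hP hB)).mul (((EPA_c _).mul hB).mul hB')))))).add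
    ((EPA_exp ((EPA_c (2 : ℝ)).mul hL)).mul ((((EPA_c _).mul hL').mul (EPA_nsq (EPA_yy hP hR hB))).add
      ((EPA_c _).mul (EPA_re ((EPA_conj (EPA_yy hP hR hB)).mul ((((EPA_c _).mul hP).mul hB').sub
        ((((EPA_c _).mul (hB.pow 2))).mul hB')))))))).add ((EPA_exp hL.neg).mul hL'))

theorem EPA_QQ' (hP : ContDiffOn ℝ ∞ P S) (hR : ContDiffOn ℝ ∞ R S) (hL : ContDiffOn ℝ ∞ L S) (hB : ContDiffOn ℝ ∞ B S)
    (hL' : ContDiffOn ℝ ∞ L' S) (hB' : ContDiffOn ℝ ∞ B' S) :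
    ContDiffOn ℝ ∞ (fun x => QQ' (P x) (R x) (L x) (B x) (L' x) (B' x)) S := by
  unfold QQ'
  have hx := EPA_xx hP hB
  have hy := EPA_yy hP hR hB
  have hBB : ContDiffOn ℝ ∞ (fun x => -3 * B x * B' x) S := ((EPA_c _).mul hB).mul hB'
  have hd : ContDiffOn ℝ ∞ (fun x => 2 * P x * B' x - 3 * B x ^ 2 * B' x) S :=
    (((EPA_c _).mul hP).mul hB').sub (((EPA_c _).mul (hB.pow 2)).mul hB')
  refine (((EPA_c _).mul hB').sub (((EPA_c _).mul (EPA_of (EPA_exp hL))).mul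
    (((((EPA_of hL').mul (EPA_conj hB)).mul hx).add ((EPA_conj hB').mul hx)).add ((EPA_conj hB).mul hBB)))).add
    ((EPA_of (EPA_exp ((EPA_c (2 : ℝ)).mul hL))).mul ((((((EPA_c _).mul (EPA_of hL')).mul hy).mul (EPA_conj hx)).add
      (hd.mul (EPA_conj hx))).add (hy.mul (EPA_conj hBB))))

end

/-- the exponent -/
def EPA_L (v : Fin 8 → ℂ) (z : ℂ) : ℝ := (v 2).re - 2 * Real.log (1 + ‖z‖ ^ 2)

/-- the right hand side -/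
def EPA_G (D : Dat) (j : Bool) (z : ℂ) (v : Fin 8 → ℂ) : Fin 8 → ℂ :=
  ![(Real.exp (-(EPA_L v z)) : ℂ) * conj (v 1),
    (Wt D.κ z : ℂ) * conj (QQ (D.p j z) (D.r j z) (EPA_L v z) (v 0)),
    conj (v 3),
    ((Real.exp (-(EPA_L v z)) * ‖v 1‖ ^ 2 + Wt D.κ z * (RR (D.p j z) (D.r j z) (EPA_L v z) (v 0) + D.s j z) +
      2 / (1 + ‖z‖ ^ 2) ^ 2 : ℝ) : ℂ),
    (Real.exp (-(EPA_L v z)) : ℂ) * (conj (v 5) - ((v 6).re : ℂ) * conj (v 1)),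
    (Wt D.κ z : ℂ) * conj (QQ' (D.p j z) (D.r j z) (EPA_L v z) (v 0) (v 6).re (v 4)),
    conj (v 7),
    ((Real.exp (-(EPA_L v z)) * (2 * (conj (v 1) * v 5).re - (v 6).re * ‖v 1‖ ^ 2) +
      Wt D.κ z * RR' (D.p j z) (D.r j z) (EPA_L v z) (v 0) (v 6).re (v 4) : ℝ) : ℂ)]

theorem EPA_Wt (κ : ℝ) : ContDiffOn ℝ ∞ (Wt κ) Ns := by
  unfold Wt
  have h1 : ContDiffOn ℝ ∞ (fun z : ℂ => 1 - z ^ 8) Ns := (by fun_prop : ContDiff ℝ ∞ (fun z : ℂ => 1 - z ^ 8)).contDiffOn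
  refine contDiffOn_const.div (h1.norm ℝ ?_) ?_
  · intro z hz h; exact hz (by linear_combination -h)
  · intro z hz h; exact hz (by linear_combination -(norm_eq_zero.1 h))

theorem EPA_hol {f : ℂ → ℂ} (h : Differentiable ℂ f) : ContDiff ℝ ∞ f := (h.contDiff (n := ∞)).restrict_scalars ℝ

theorem EPA_smooth (D : Dat) (hD : D.Valid) (j : Bool) :
    ContDiffOn ℝ ∞ (fun x : ℂ × (Fin 8 → ℂ) => EPA_G D j x.1 x.2) (Ns ×ˢ univ) := by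
  have hv : ∀ i, ContDiffOn ℝ ∞ (fun x : ℂ × (Fin 8 → ℂ) => x.2 i) (Ns ×ˢ univ) := fun i =>
    ((contDiff_apply ℝ ℂ i).comp contDiff_snd).contDiffOn
  have hz : ContDiffOn ℝ ∞ (fun x : ℂ × (Fin 8 → ℂ) => x.1) (Ns ×ˢ univ) := contDiff_fst.contDiffOn
  have hm : MapsTo (fun x : ℂ × (Fin 8 → ℂ) => x.1) (Ns ×ˢ univ) Ns := fun x hx => hx.1
  have hp : ContDiffOn ℝ ∞ (fun x : ℂ × (Fin 8 → ℂ) => D.p j x.1) (Ns ×ˢ univ) :=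
    (EPA_hol (hD.hp j)).comp_contDiffOn hz
  have hr : ContDiffOn ℝ ∞ (fun x : ℂ × (Fin 8 → ℂ) => D.r j x.1) (Ns ×ˢ univ) :=
    (EPA_hol (hD.hr j)).comp_contDiffOn hz
  have hs : ContDiffOn ℝ ∞ (fun x : ℂ × (Fin 8 → ℂ) => D.s j x.1) (Ns ×ˢ univ) := (hD.ss j).comp hz hm
  have hW : ContDiffOn ℝ ∞ (fun x : ℂ × (Fin 8 → ℂ) => Wt D.κ x.1) (Ns ×ˢ univ) := (EPA_Wt D.κ).comp hz hm
  have h1 : ContDiffOn ℝ ∞ (fun x : ℂ × (Fin 8 → ℂ) => 1 + ‖x.1‖ ^ 2) (Ns ×ˢ univ) := contDiffOn_const.add (EPA_nsq hz)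
  have hpos : ∀ z : ℂ, (0 : ℝ) < 1 + ‖z‖ ^ 2 := fun z => by positivity
  have hL : ContDiffOn ℝ ∞ (fun x : ℂ × (Fin 8 → ℂ) => EPA_L x.2 x.1) (Ns ×ˢ univ) :=
    (EPA_re (hv 2)).sub (contDiffOn_const.mul (h1.log fun x _ => (hpos x.1).ne'))
  have hd : ContDiffOn ℝ ∞ (fun x : ℂ × (Fin 8 → ℂ) => 2 / (1 + ‖x.1‖ ^ 2) ^ 2) (Ns ×ˢ univ) :=
    contDiffOn_const.div (h1.pow 2) fun x _ => (pow_pos (hpos x.1) 2).ne'
  have he := EPA_exp hL.neg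
  rw [contDiffOn_pi]
  intro i
  fin_cases i
  · exact (EPA_of he).mul (EPA_conj (hv 1))
  · exact (EPA_of hW).mul (EPA_conj (EPA_QQ hp hr hL (hv 0)))
  · exact EPA_conj (hv 3)
  · exact EPA_of (((he.mul (EPA_nsq (hv 1))).add (hW.mul ((EPA_RR hp hr hL (hv 0)).add hs))).add hd)
  · exact (EPA_of he).mul ((EPA_conj (hv 5)).sub ((EPA_of (EPA_re (hv 6))).mul (EPA_conj (hv 1))))
  · exact (EPA_of hW).mul (EPA_conj (EPA_QQ' hp hr hL (hv 0) (EPA_re (hv 6)) (hv 4)))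
  · exact EPA_conj (hv 7)
  · exact EPA_of ((he.mul ((contDiffOn_const.mul (EPA_re ((EPA_conj (hv 1)).mul (hv 5)))).sub
      ((EPA_re (hv 6)).mul (EPA_nsq (hv 1))))).add (hW.mul (EPA_RR' hp hr hL (hv 0) (EPA_re (hv 6)) (hv 4))))

end

end Pool.Agent.DL
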